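import Pool.Agent.L7h11.DP.Stm

set_option autoImplicit false

/-!
# Selberg's diagonalisation (`S_DG`)
-/

namespace Pool.Agent.L7h26.DP

open Finset
open Pool.Agent.L7h11.DP

noncomputable section

lemma integral_sqrt_sub {c u : ℝ} (hc : 0 ≤ c) (hcu : c ≤ u) :
    ∫ v in (0 : ℝ)..u, √(v - c) = 2 / 3 * ((u - c) * √(u - c)) := by
  have hcont : Continuous fun v : ℝ => √(v - c) := by fun_prop
  rw [← intervalIntegral.integral_add_adjacent_intervals (b := c)
    (hcont.intervalIntegrable _ _) (hcont.intervalIntegrable _ _)]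
  have h1 : ∫ v in (0 : ℝ)..c, √(v - c) = 0 := by
    have h0 : ∫ v in (0 : ℝ)..c, √(v - c) = ∫ _ in (0 : ℝ)..c, (0 : ℝ) := by
      refine intervalIntegral.integral_congr fun v hv => ?_
      rw [Set.uIcc_of_le hc] at hv
      exact Real.sqrt_eq_zero_of_nonpos (by linarith [hv.2])
    rw [h0, intervalIntegral.integral_zero]
  have h2 : ∫ v in c..u, √(v - c) = 2 / 3 * ((u - c) * √(u - c)) := by
    rw [intervalIntegral.integral_comp_sub_right (fun v => √v), sub_self]
    have h3 : ∫ v in (0 : ℝ)..(u - c), √v = ∫ v in (0 : ℝ)..(u - c), v ^ (1 / 2 : ℝ) :=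
      intervalIntegral.integral_congr fun v _ => Real.sqrt_eq_rpow v
    rw [h3, integral_rpow (Or.inl (by norm_num)), Real.zero_rpow (by norm_num), sub_zero]
    have h4 : (u - c) ^ (1 / 2 + 1 : ℝ) = (u - c) * √(u - c) := by
      rw [Real.rpow_add_one' (by linarith) (by norm_num), ← Real.sqrt_eq_rpow]
      ring
    rw [h4]
    ring
  rw [h1, h2, zero_add]

/-- longer sums do not change `BB` -/
lemma BB_eq (d : ℕ) (v : ℝ) {M : ℕ} (hM : ⌊Real.exp v⌋₊ ≤ M) :
    BB d v = ∑ m ∈ Icc 1 M, fc (d * m) / m * √(v - Real.log m) := by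
  unfold BB
  refine sum_subset (Icc_subset_Icc_right hM) fun m hm hm2 => ?_
  rw [mem_Icc] at hm hm2
  have h1 : ⌊Real.exp v⌋₊ < m := by
    by_contra h
    exact hm2 ⟨hm.1, not_lt.1 h⟩
  have h2 : Real.exp v < m := (Nat.floor_lt (Real.exp_pos v).le).1 h1
  have h3 : v < Real.log m := by
    rw [← Real.log_exp v]
    exact Real.log_lt_log (Real.exp_pos v) h2
  rw [Real.sqrt_eq_zero_of_nonpos (by linarith), mul_zero]

lemma integral_BB (d : ℕ) {u : ℝ} (hu : 0 ≤ u) : ∫ v in (0 : ℝ)..u, BB d v =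
    2 / 3 * ∑ m ∈ Icc 1 ⌊Real.exp u⌋₊, fc (d * m) / m * ((u - Real.log m) *
      √(u - Real.log m)) := by
  have h1 : ∫ v in (0 : ℝ)..u, BB d v = ∫ v in (0 : ℝ)..u, ∑ m ∈ Icc 1 ⌊Real.exp u⌋₊,
      fc (d * m) / m * √(v - Real.log m) := by
    refine intervalIntegral.integral_congr fun v hv => ?_
    rw [Set.uIcc_of_le hu] at hv
    exact BB_eq d v (Nat.floor_le_floor (Real.exp_le_exp.2 hv.2))
  rw [h1, intervalIntegral.integral_finsetSum, mul_sum]
  · refine sum_congr rfl fun m hm => ?_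
    rw [mem_Icc] at hm
    have h2 : (m : ℝ) ≤ Real.exp u := (Nat.le_floor_iff (Real.exp_pos u).le).1 hm.2
    have hm0 : (0 : ℝ) < m := by exact_mod_cast hm.1
    have h3 : Real.log m ≤ u := by
      rw [← Real.log_exp u]
      exact Real.log_le_log hm0 h2
    have h4 : 0 ≤ Real.log m := Real.log_natCast_nonneg m
    rw [intervalIntegral.integral_const_mul, integral_sqrt_sub h4 h3]
    ring
  · intro m _
    exact Continuous.intervalIntegrable (by fun_prop) _ _

lemma floor_exp_div {ℓ : ℝ} {d : ℕ} (hd : 1 ≤ d) :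
    ⌊Real.exp (ℓ - Real.log d)⌋₊ = ⌊Real.exp ℓ⌋₊ / d := by
  have hd0 : (0 : ℝ) < d := by exact_mod_cast hd
  rw [Real.exp_sub, Real.exp_log hd0, Nat.floor_div_natCast]

/-- sums over multiples -/
lemma sum_mult (F : ℕ → ℝ) (N : ℕ) {d : ℕ} (hd : 1 ≤ d) :
    ∑ h ∈ Icc 1 N, (if d ∣ h then F h else 0) = ∑ m ∈ Icc 1 (N / d), F (d * m) := by
  rw [← sum_filter]
  symm
  refine sum_nbij' (fun m => d * m) (fun h => h / d) ?_ ?_ ?_ ?_ ?_
  · intro m hm
    rw [mem_Icc] at hm
    rw [mem_filter, mem_Icc]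
    refine ⟨⟨Nat.mul_pos hd hm.1, ?_⟩, dvd_mul_right _ _⟩
    rw [mul_comm]
    exact (Nat.le_div_iff_mul_le hd).1 hm.2
  · intro h hh
    rw [mem_filter, mem_Icc] at hh
    rw [mem_Icc]
    exact ⟨Nat.div_pos (Nat.le_of_dvd hh.1.1 hh.2) hd, Nat.div_le_div_right hh.1.2⟩
  · intro m _
    exact Nat.mul_div_cancel_left m hd
  · intro h hh
    rw [mem_filter] at hh
    exact Nat.mul_div_cancel' hh.2
  · intro m _
    rfl

/-- diagonalisation -/
lemma dsum (F G c : ℕ → ℝ) (N : ℕ) :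
    ∑ h ∈ Icc 1 N, ∑ l ∈ Icc 1 N, F h * G l * ∑ d ∈ (Nat.gcd h l).divisors, c d =
      ∑ d ∈ Icc 1 N, c d * ((∑ h ∈ Icc 1 N, if d ∣ h then F h else 0) *
        (∑ l ∈ Icc 1 N, if d ∣ l then G l else 0)) := by
  have h1 : ∀ h ∈ Icc 1 N, ∀ l ∈ Icc 1 N, F h * G l * ∑ d ∈ (Nat.gcd h l).divisors, c d =
      ∑ d ∈ Icc 1 N, c d * ((if d ∣ h then F h else 0) * (if d ∣ l then G l else 0)) := by
    intro h hh l hl
    rw [mem_Icc] at hh hl
    have h2 : (Nat.gcd h l).divisors = (Icc 1 N).filter (fun d => d ∣ h ∧ d ∣ l) := by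
      ext d
      rw [Nat.mem_divisors, mem_filter, mem_Icc, Nat.dvd_gcd_iff]
      constructor
      · rintro ⟨h3, -⟩
        exact ⟨⟨Nat.pos_of_dvd_of_pos h3.1 hh.1, (Nat.le_of_dvd hh.1 h3.1).trans hh.2⟩, h3⟩
      · rintro ⟨-, h3⟩
        exact ⟨h3, (Nat.gcd_pos_of_pos_left l hh.1).ne'⟩
    rw [h2, sum_filter, mul_sum]
    refine sum_congr rfl fun d _ => ?_
    by_cases h3 : d ∣ h
    · by_cases h4 : d ∣ l
      · simp only [h3, h4, and_self, if_true]; ring
      · simp only [h3, h4, and_false, if_false, if_true]; ring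
    · simp only [h3, false_and, if_false]; ring
  rw [sum_congr rfl fun h hh => sum_congr rfl fun l hl => h1 h hh l hl]
  rw [sum_congr rfl fun h _ => sum_comm, sum_comm]
  refine sum_congr rfl fun d _ => ?_
  rw [sum_mul_sum, mul_sum]
  exact sum_congr rfl fun h _ => by rw [mul_sum]

/-- the totient as a real arithmetic function -/
def tot : ArithmeticFunction ℝ := ⟨fun n => (Nat.totient n : ℝ), by simp⟩

lemma Lphi_eq (d : ℕ) : Lphi d = (ArithmeticFunction.vonMangoldt * tot) d := by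
  rw [ArithmeticFunction.mul_apply]
  rfl

lemma gcd_log {g : ℕ} (hg : 1 ≤ g) : (g : ℝ) * Real.log g =
    ∑ d ∈ g.divisors, ((Nat.totient d : ℝ) * Real.log d + Lphi d) := by
  have h1 : ((ArithmeticFunction.vonMangoldt * tot) *
      ((ArithmeticFunction.zeta : ArithmeticFunction ℕ) : ArithmeticFunction ℝ)) g =
      (tot * ArithmeticFunction.log) g := by
    rw [← ArithmeticFunction.vonMangoldt_mul_zeta, mul_comm ArithmeticFunction.vonMangoldt tot,
      mul_assoc]
  rw [ArithmeticFunction.coe_mul_zeta_apply, ArithmeticFunction.mul_apply] at h1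
  rw [sum_add_distrib]
  have h2 : ∑ d ∈ g.divisors, Lphi d = ∑ d ∈ g.divisors, (ArithmeticFunction.vonMangoldt * tot) d :=
    sum_congr rfl fun d _ => Lphi_eq d
  rw [h2, h1, Nat.sum_divisorsAntidiagonal (fun x y => tot x * ArithmeticFunction.log y),
    ← sum_add_distrib]
  have h3 : (g : ℝ) = ∑ d ∈ g.divisors, (Nat.totient d : ℝ) := by
    exact_mod_cast (Nat.sum_totient g).symm
  have h5 : (g : ℝ) * Real.log g = (∑ d ∈ g.divisors, (Nat.totient d : ℝ)) * Real.log g := by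
    rw [← h3]
  rw [h5, sum_mul]
  refine sum_congr rfl fun d hd => ?_
  rw [Nat.mem_divisors] at hd
  obtain ⟨e, he⟩ := hd.1
  have hd0 : 0 < d := Nat.pos_of_dvd_of_pos hd.1 hg
  have he0 : 0 < e := by
    rcases Nat.eq_zero_or_pos e with rfl | h
    · rw [mul_zero] at he; omega
    · exact h
  have h4 : g / d = e := by rw [he, Nat.mul_div_cancel_left e hd0]
  rw [h4, ArithmeticFunction.log_apply, he, Nat.cast_mul,
    Real.log_mul (by positivity) (by positivity)]
  show (Nat.totient d : ℝ) * (Real.log d + Real.log e) =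
    (Nat.totient d : ℝ) * Real.log d + (Nat.totient d : ℝ) * Real.log e
  ring

/-- **S_DG** -/
theorem s_dg : S_DG := by
  intro Z ℓ hℓ
  set N : ℕ := ⌊Real.exp ℓ⌋₊ with hN
  set A : ℕ → ℝ := fun h => fc h * √(ℓ - Real.log h) / h with hA
  -- the terms of the quadratic form
  have hterm : ∀ h ∈ Icc 1 N, ∀ l ∈ Icc 1 N,
      (fc h * √(ℓ - Real.log h)) * (fc l * √(ℓ - Real.log l)) *
        (1 / (Nat.lcm h l : ℝ) * (Z + Real.log ((Nat.gcd h l : ℝ) ^ 2 / ((h : ℝ) * l)))) =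
      Z * (A h * A l * ∑ d ∈ (Nat.gcd h l).divisors, (Nat.totient d : ℝ)) +
      2 * (A h * A l * ∑ d ∈ (Nat.gcd h l).divisors, ((Nat.totient d : ℝ) * Real.log d + Lphi d)) -
      A h * (A l * Real.log l) * (∑ d ∈ (Nat.gcd h l).divisors, (Nat.totient d : ℝ)) -
      (A h * Real.log h) * A l * ∑ d ∈ (Nat.gcd h l).divisors, (Nat.totient d : ℝ) := by
    intro h hh l hl
    rw [mem_Icc] at hh hl
    have hg : 0 < Nat.gcd h l := Nat.gcd_pos_of_pos_left l hh.1
    have hh0 : (0 : ℝ) < h := by exact_mod_cast hh.1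
    have hl0 : (0 : ℝ) < l := by exact_mod_cast hl.1
    have hg0 : (0 : ℝ) < Nat.gcd h l := by exact_mod_cast hg
    have hlcm : (Nat.lcm h l : ℝ) = h * l / Nat.gcd h l := by
      rw [eq_div_iff hg0.ne', mul_comm]
      exact_mod_cast Nat.gcd_mul_lcm h l
    have h3 : ∑ d ∈ (Nat.gcd h l).divisors, (Nat.totient d : ℝ) = Nat.gcd h l := by
      exact_mod_cast Nat.sum_totient (Nat.gcd h l)
    rw [← gcd_log hg, h3, hlcm, Real.log_div (by positivity) (by positivity), Real.log_pow,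
      Real.log_mul hh0.ne' hl0.ne']
    simp only [hA]
    push_cast
    field_simp
    ring
  have hQ : QQ Z ℓ = ∑ d ∈ Icc 1 N, ((Nat.totient d : ℝ) * (Z *
      ((∑ h ∈ Icc 1 N, if d ∣ h then A h else 0) * (∑ h ∈ Icc 1 N, if d ∣ h then A h else 0)) -
      2 * ((∑ h ∈ Icc 1 N, if d ∣ h then A h else 0) *
        (∑ h ∈ Icc 1 N, if d ∣ h then A h * Real.log h else 0))) +
      2 * (((Nat.totient d : ℝ) * Real.log d + Lphi d) *
      ((∑ h ∈ Icc 1 N, if d ∣ h then A h else 0) *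
        (∑ h ∈ Icc 1 N, if d ∣ h then A h else 0)))) := by
    unfold QQ
    rw [← hN, sum_congr rfl fun h hh => sum_congr rfl fun l hl => hterm h hh l hl]
    have key : ∀ c1 c2 : ℕ → ℝ, ∑ h ∈ Icc 1 N, ∑ l ∈ Icc 1 N,
        (Z * (A h * A l * ∑ d ∈ (Nat.gcd h l).divisors, c1 d) +
        2 * (A h * A l * ∑ d ∈ (Nat.gcd h l).divisors, c2 d) -
        A h * (A l * Real.log l) * (∑ d ∈ (Nat.gcd h l).divisors, c1 d) -
        (A h * Real.log h) * A l * ∑ d ∈ (Nat.gcd h l).divisors, c1 d) =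
        ∑ d ∈ Icc 1 N, (c1 d * (Z *
        ((∑ h ∈ Icc 1 N, if d ∣ h then A h else 0) * (∑ h ∈ Icc 1 N, if d ∣ h then A h else 0)) -
        2 * ((∑ h ∈ Icc 1 N, if d ∣ h then A h else 0) *
          (∑ h ∈ Icc 1 N, if d ∣ h then A h * Real.log h else 0))) +
        2 * (c2 d *
        ((∑ h ∈ Icc 1 N, if d ∣ h then A h else 0) *
          (∑ h ∈ Icc 1 N, if d ∣ h then A h else 0)))) := by
      intro c1 c2
      simp only [sum_sub_distrib, sum_add_distrib, ← mul_sum]
      rw [dsum A A c1 N, dsum A A c2 N, dsum A (fun l => A l * Real.log l) c1 N,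
        dsum (fun h => A h * Real.log h) A c1 N]
      rw [mul_sum, mul_sum, ← sum_add_distrib, ← sum_sub_distrib, ← sum_sub_distrib,
        ← sum_add_distrib]
      exact sum_congr rfl fun d _ => by ring
    exact key (fun d => (Nat.totient d : ℝ)) (fun d => (Nat.totient d : ℝ) * Real.log d + Lphi d)
  rw [hQ, mul_sum, ← sum_add_distrib]
  refine sum_congr rfl fun d hd => ?_
  rw [mem_Icc] at hd
  have hd0 : (0 : ℝ) < d := by exact_mod_cast hd.1
  have hdℓ : Real.log d ≤ ℓ := by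
    rw [← Real.log_exp ℓ]
    exact Real.log_le_log hd0 ((Nat.le_floor_iff (Real.exp_pos ℓ).le).1 hd.2)
  set u : ℝ := ℓ - Real.log d with hu
  have hu0 : 0 ≤ u := by linarith
  have hfl : ⌊Real.exp u⌋₊ = N / d := floor_exp_div hd.1
  have hS : (∑ h ∈ Icc 1 N, if d ∣ h then A h else 0) = BB d u / d := by
    rw [sum_mult A N hd.1]
    unfold BB
    rw [hfl, sum_div]
    refine sum_congr rfl fun m hm => ?_
    rw [mem_Icc] at hm
    have hm0 : (0 : ℝ) < m := by exact_mod_cast hm.1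
    simp only [hA, hu]
    rw [Nat.cast_mul, Real.log_mul hd0.ne' hm0.ne', ← sub_sub]
    field_simp
  have hT : (∑ h ∈ Icc 1 N, if d ∣ h then A h * Real.log h else 0) =
      (Real.log d * BB d u + (u * BB d u - 3 / 2 * ∫ v in (0 : ℝ)..u, BB d v)) / d := by
    rw [sum_mult (fun h => A h * Real.log h) N hd.1, integral_BB d hu0]
    have e1 : Real.log d * BB d u + (u * BB d u - 3 / 2 * (2 / 3 *
        ∑ m ∈ Icc 1 ⌊Real.exp u⌋₊, fc (d * m) / m * ((u - Real.log m) * √(u - Real.log m)))) =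
        ∑ m ∈ Icc 1 (N / d), (Real.log d + Real.log m) * (fc (d * m) / m * √(u - Real.log m)) := by
      unfold BB
      rw [hfl]
      simp only [mul_sum]
      rw [← sum_sub_distrib, ← sum_add_distrib]
      exact sum_congr rfl fun m _ => by ring
    rw [e1, sum_div]
    refine sum_congr rfl fun m hm => ?_
    rw [mem_Icc] at hm
    have hm0 : (0 : ℝ) < m := by exact_mod_cast hm.1
    simp only [hA, hu]
    rw [Nat.cast_mul, Real.log_mul hd0.ne' hm0.ne', ← sub_sub]
    field_simp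
  rw [hS, hT]
  field_simp
  ring

end

end Pool.Agent.L7h26.DP
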