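import Pool.Agent.L7h26.DP.Hd
import Pool.Agent.L7h26.DP.Dg

set_option autoImplicit false

/-!
# Uniform asymptotics (`S_BD`)
-/

namespace Pool.Agent.L7h26.DP

open Finset Filter Topology
open Pool.Agent.H306R2 (lc dv aF dA)
open Pool.Agent.L7h11.DP

noncomputable section

/-- the divisor sum as a double sum -/
lemma sum_dv (g : ℕ → ℕ → ℝ) (N : ℕ) :
    ∑ m ∈ Icc 1 N, ∑ x ∈ m.divisorsAntidiagonal, g x.1 x.2 =
      ∑ k ∈ Icc 1 N, ∑ n ∈ Icc 1 (N / k), g k n := by
  rw [sum_sigma', sum_sigma']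
  refine sum_nbij' (fun x => (⟨x.2.1, x.2.2⟩ : Σ _ : ℕ, ℕ))
    (fun y => (⟨y.1 * y.2, (y.1, y.2)⟩ : Σ _ : ℕ, ℕ × ℕ)) ?_ ?_ ?_ ?_ ?_
  · rintro ⟨m, a, b⟩ hx
    rw [mem_sigma, mem_Icc, Nat.mem_divisorsAntidiagonal] at hx
    obtain ⟨⟨h1, h2⟩, h3, h4⟩ := hx
    simp only at h1 h2 h3 h4
    have ha : 0 < a := by
      rcases Nat.eq_zero_or_pos a with rfl | h
      · rw [zero_mul] at h3; omega
      · exact h
    have hb : 0 < b := by
      rcases Nat.eq_zero_or_pos b with rfl | h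
      · rw [mul_zero] at h3; omega
      · exact h
    rw [mem_sigma, mem_Icc, mem_Icc]
    refine ⟨⟨ha, ?_⟩, hb, ?_⟩
    · calc a ≤ a * b := Nat.le_mul_of_pos_right _ hb
        _ ≤ N := by rw [h3]; exact h2
    · show b ≤ N / a
      rw [Nat.le_div_iff_mul_le ha, mul_comm, h3]
      exact h2
  · rintro ⟨a, b⟩ hx
    rw [mem_sigma, mem_Icc, mem_Icc] at hx
    obtain ⟨⟨h1, h2⟩, h3, h4⟩ := hx
    simp only at h1 h2 h3 h4
    rw [mem_sigma, mem_Icc, Nat.mem_divisorsAntidiagonal]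
    have h5 : a * b ≤ N := by
      rw [mul_comm]
      exact (Nat.le_div_iff_mul_le h1).1 h4
    have h6 : 0 < a * b := Nat.mul_pos h1 h3
    exact ⟨⟨h6, h5⟩, rfl, h6.ne'⟩
  · rintro ⟨m, a, b⟩ hx
    rw [mem_sigma, Nat.mem_divisorsAntidiagonal] at hx
    have h3 : a * b = m := hx.2.1
    subst h3
    rfl
  · rintro ⟨a, b⟩ _
    rfl
  · rintro ⟨m, a, b⟩ _
    rfl

/-- `BB` vanishes on the negative axis -/
lemma BB_neg {d : ℕ} {v : ℝ} (hv : v < 0) : BB d v = 0 := by
  unfold BB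
  have : ⌊Real.exp v⌋₊ = 0 := Nat.floor_eq_zero.2 (Real.exp_lt_one_iff.2 hv)
  rw [this]
  simp

/-- `B_d(u) = ∑_k h_d(k)/k B_1(u - log k)` -/
lemma BB_conv (d : ℕ) (u : ℝ) :
    BB d u = ∑ k ∈ Icc 1 ⌊Real.exp u⌋₊, hd d k / k * BB 1 (u - Real.log k) := by
  set N := ⌊Real.exp u⌋₊ with hN
  have h1 : BB d u = ∑ m ∈ Icc 1 N, ∑ x ∈ m.divisorsAntidiagonal,
      (hd d x.1 / x.1 * (fc (1 * x.2) / x.2 * √((u - Real.log x.1) - Real.log x.2))) := by
    unfold BB
    rw [← hN]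
    refine sum_congr rfl fun m hm => ?_
    rw [mem_Icc] at hm
    rw [fc_eq, sum_div, sum_mul]
    refine sum_congr rfl fun x hx => ?_
    rw [Nat.mem_divisorsAntidiagonal] at hx
    obtain ⟨h2, h3⟩ := hx
    have hne : x.1 * x.2 ≠ 0 := by rw [h2]; exact h3
    have ha : (0 : ℝ) < x.1 := by exact_mod_cast Nat.pos_of_ne_zero (left_ne_zero_of_mul hne)
    have hb : (0 : ℝ) < x.2 := by exact_mod_cast Nat.pos_of_ne_zero (right_ne_zero_of_mul hne)
    rw [← h2, Nat.cast_mul, Real.log_mul ha.ne' hb.ne', sub_sub, one_mul]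
    field_simp
  rw [h1, sum_dv (fun a b => hd d a / a * (fc (1 * b) / b * √((u - Real.log a) - Real.log b)))]
  refine sum_congr rfl fun k hk => ?_
  rw [mem_Icc] at hk
  unfold BB
  rw [floor_exp_div hk.1, ← hN, mul_sum]

/-- a bound for `B_1` -/
lemma BB_bdd (v0 : ℝ) : ∃ C : ℝ, 0 < C ∧ ∀ v, v ≤ v0 → |BB 1 v - √Real.pi / 2| ≤ C := by
  refine ⟨(∑ m ∈ Icc 1 ⌊Real.exp v0⌋₊, |fc (1 * m) / m| * √(v0 - Real.log m)) +
    √Real.pi / 2 + 1, ?_, fun v hv => ?_⟩
  · have : 0 ≤ ∑ m ∈ Icc 1 ⌊Real.exp v0⌋₊, |fc (1 * m) / m| * √(v0 - Real.log m) :=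
      sum_nonneg fun m _ => by positivity
    positivity
  · have h1 : |BB 1 v| ≤ ∑ m ∈ Icc 1 ⌊Real.exp v0⌋₊, |fc (1 * m) / m| * √(v0 - Real.log m) := by
      rw [BB_eq 1 v (Nat.floor_le_floor (Real.exp_le_exp.2 hv))]
      refine (abs_sum_le_sum_abs _ _).trans (sum_le_sum fun m _ => ?_)
      rw [abs_mul, abs_of_nonneg (Real.sqrt_nonneg _)]
      exact mul_le_mul_of_nonneg_left (Real.sqrt_le_sqrt (by linarith)) (abs_nonneg _)
    have h2 : |BB 1 v - √Real.pi / 2| ≤ |BB 1 v| + |√Real.pi / 2| := abs_sub _ _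
    rw [abs_of_nonneg (by positivity : (0 : ℝ) ≤ √Real.pi / 2)] at h2
    linarith

lemma hd_zero (d : ℕ) : hd d 0 = 0 := by simp [hd]

/-- **S_BD** -/
theorem s_bd (hBL : S_BL) (hHD : S_HD) : S_BD := by
  intro ε hε
  unfold S_BL at hBL
  rw [Metric.tendsto_atTop] at hBL
  obtain ⟨v0, hv0⟩ := hBL ε hε
  obtain ⟨C0, hC0, hC0'⟩ := BB_bdd v0
  refine ⟨C0 * Real.exp (v0 / 4), by positivity, fun d hd1 u hu => ?_⟩
  set C : ℝ := C0 * Real.exp (v0 / 4) with hC
  have hCpos : 0 < C := by positivity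
  have hB1 : ∀ v : ℝ, |BB 1 v - √Real.pi / 2| ≤ ε + C * Real.exp (-(v / 4)) := by
    intro v
    rcases le_or_gt v0 v with h | h
    · have h1 := hv0 v h
      rw [Real.dist_eq] at h1
      have : 0 ≤ C * Real.exp (-(v / 4)) := by positivity
      linarith
    · have h1 := hC0' v h.le
      have h2 : C0 ≤ C * Real.exp (-(v / 4)) := by
        rw [hC, mul_assoc, ← Real.exp_add]
        exact le_mul_of_one_le_right hC0.le (Real.one_le_exp (by linarith))
      linarith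
  -- weights
  have hw : ∀ k : ℕ, 1 ≤ k → ((k : ℝ))⁻¹ ≤ (k : ℝ) ^ (-(3 / 4) : ℝ) := by
    intro k hk
    have hk1 : (1 : ℝ) ≤ k := by exact_mod_cast hk
    rw [← Real.rpow_neg_one]
    exact Real.rpow_le_rpow_of_exponent_le hk1 (by norm_num)
  have hw2 : ∀ k : ℕ, 1 ≤ k → ((k : ℝ))⁻¹ * Real.exp (Real.log k / 4) = (k : ℝ) ^ (-(3 / 4) : ℝ) := by
    intro k hk
    have hk0 : (0 : ℝ) < k := by exact_mod_cast hk
    rw [show Real.exp (Real.log k / 4) = (k : ℝ) ^ (1 / 4 : ℝ) by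
      rw [Real.rpow_def_of_pos hk0]; congr 1; ring, ← Real.rpow_neg_one, ← Real.rpow_add hk0]
    norm_num
  have hfin : ∀ X : ℕ, ∑ k ∈ Icc 1 X, |hd d k / k * (BB 1 (u - Real.log k) - √Real.pi / 2)| ≤
      KK d * (ε + C * Real.exp (-(u / 4))) := by
    intro X
    have h1 : ∀ k ∈ Icc 1 X, |hd d k / k * (BB 1 (u - Real.log k) - √Real.pi / 2)| ≤
        (|hd d k| * (k : ℝ) ^ (-(3 / 4) : ℝ)) * (ε + C * Real.exp (-(u / 4))) := by
      intro k hk
      rw [mem_Icc] at hk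
      have hk0 : (0 : ℝ) < k := by exact_mod_cast hk.1
      rw [abs_mul, abs_div, abs_of_pos hk0]
      have h2 := hB1 (u - Real.log k)
      have h3 : Real.exp (-((u - Real.log k) / 4)) = Real.exp (-(u / 4)) *
          Real.exp (Real.log k / 4) := by
        rw [← Real.exp_add]; congr 1; ring
      rw [h3] at h2
      calc |hd d k| / k * |BB 1 (u - Real.log k) - √Real.pi / 2|
          ≤ |hd d k| / k * (ε + C * (Real.exp (-(u / 4)) * Real.exp (Real.log k / 4))) :=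
            mul_le_mul_of_nonneg_left h2 (by positivity)
        _ = |hd d k| * ((k : ℝ)⁻¹ * ε + C * Real.exp (-(u / 4)) *
            ((k : ℝ)⁻¹ * Real.exp (Real.log k / 4))) := by rw [div_eq_mul_inv]; ring
        _ ≤ |hd d k| * ((k : ℝ) ^ (-(3 / 4) : ℝ) * ε + C * Real.exp (-(u / 4)) *
            (k : ℝ) ^ (-(3 / 4) : ℝ)) := by
            rw [hw2 k hk.1]
            have := hw k hk.1
            gcongr
        _ = _ := by ring
    refine (sum_le_sum h1).trans ?_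
    rw [← sum_mul]
    exact mul_le_mul_of_nonneg_right (hHD.2 d X hd1) (by positivity)
  -- summability
  have hrange : ∀ (f : ℕ → ℝ) (X : ℕ), f 0 = 0 → ∑ k ∈ range X, f k ≤ ∑ k ∈ Icc 1 X, |f k| := by
    intro f X h0
    calc ∑ k ∈ range X, f k ≤ ∑ k ∈ range X, |f k| := sum_le_sum fun k _ => le_abs_self _
      _ ≤ ∑ k ∈ insert 0 (Icc 1 X), |f k| := by
          refine sum_le_sum_of_subset_of_nonneg ?_ (fun k _ _ => abs_nonneg _)
          intro k hk
          rw [mem_range] at hk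
          rw [mem_insert, mem_Icc]
          omega
      _ = ∑ k ∈ Icc 1 X, |f k| := by
          rw [sum_insert (by simp), h0, abs_zero, zero_add]
  have hsum1 : Summable (fun k : ℕ => |hd d k / k|) := by
    refine summable_of_sum_range_le (c := KK d) (fun k => abs_nonneg _) fun X => ?_
    refine (hrange _ X (by rw [hd_zero]; simp)).trans (le_trans ?_ (hHD.2 d X hd1))
    refine sum_le_sum fun k hk => ?_
    rw [mem_Icc] at hk
    have hk0 : (0 : ℝ) < k := by exact_mod_cast hk.1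
    rw [abs_abs, abs_div, abs_of_pos hk0, div_eq_mul_inv]
    exact mul_le_mul_of_nonneg_left (hw k hk.1) (abs_nonneg _)
  have hsum1' : Summable (fun k : ℕ => hd d k / k) := hsum1.of_abs
  have hsum2 : Summable (fun k : ℕ => |hd d k / k * (BB 1 (u - Real.log k) - √Real.pi / 2)|) := by
    refine summable_of_sum_range_le (c := KK d * (ε + C * Real.exp (-(u / 4))))
      (fun k => abs_nonneg _) fun X => ?_
    refine (hrange _ X (by rw [hd_zero]; simp)).trans (le_trans (le_of_eq ?_) (hfin X))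
    exact sum_congr rfl fun k _ => abs_abs _
  have hBBt : BB d u = ∑' k : ℕ, hd d k / k * BB 1 (u - Real.log k) := by
    rw [BB_conv d u]
    symm
    refine tsum_eq_sum fun k hk => ?_
    rw [mem_Icc, not_and_or, not_le, not_le] at hk
    rcases hk with h | h
    · have : k = 0 := by omega
      rw [this, hd_zero]
      simp
    · have h2 : Real.exp u < k := (Nat.floor_lt (Real.exp_pos u).le).1 h
      have h3 : u < Real.log k := by
        rw [← Real.log_exp u]
        exact Real.log_lt_log (Real.exp_pos u) h2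
      rw [BB_neg (by linarith), mul_zero]
  have hdiff : BB d u - √Real.pi / 2 * lam d =
      ∑' k : ℕ, hd d k / k * (BB 1 (u - Real.log k) - √Real.pi / 2) := by
    have hs3 : Summable (fun k : ℕ => hd d k / k * BB 1 (u - Real.log k)) := by
      have h4 := (hsum2.of_abs).add (hsum1'.mul_right (√Real.pi / 2))
      refine h4.congr fun k => ?_
      ring
    rw [hBBt, lam, ← tsum_mul_left, ← hs3.tsum_sub (hsum1'.mul_left _)]
    exact tsum_congr fun k => by ring
  rw [hdiff]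
  have h5 : |∑' k : ℕ, hd d k / k * (BB 1 (u - Real.log k) - √Real.pi / 2)| ≤
      ∑' k : ℕ, |hd d k / k * (BB 1 (u - Real.log k) - √Real.pi / 2)| := by
    have := norm_tsum_le_tsum_norm (f := fun k : ℕ => hd d k / k *
      (BB 1 (u - Real.log k) - √Real.pi / 2)) (by simpa only [Real.norm_eq_abs] using hsum2)
    simpa only [Real.norm_eq_abs] using this
  refine h5.trans ?_
  refine Real.tsum_le_of_sum_range_le (fun k => abs_nonneg _) fun X => ?_
  refine (hrange _ X (by rw [hd_zero]; simp)).trans (le_trans (le_of_eq ?_) (hfin X))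
  exact sum_congr rfl fun k _ => abs_abs _

end

end Pool.Agent.L7h26.DP
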