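import Pool.Agent.L7h11.DP.Stm
import Pool.Agent.H306R2.Arith

set_option autoImplicit false

/-!
# The local coefficients (`S_HD`)
-/

namespace Pool.Agent.L7h26.DP

open Finset
open Pool.Agent.H306R2 (lc dv aF dA dA_apply dA_mul dA_mult dA_zero lc_conv lc_zero lc_one lc_succ
  lc_nonneg lc_mono lc_one_left dv_prime_pow)
open Pool.Agent.L7h11.DP

noncomputable section

/-- `m ↦ f(dm)` -/
def Fd (d : ℕ) : ArithmeticFunction ℝ := ⟨fun m => fc (d * m), by simp [fc, dv]⟩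

lemma Fd_apply (d m : ℕ) : Fd d m = fc (d * m) := rfl

lemma hd_eq (d k : ℕ) : hd d k = (Fd d * dA (1 / 2)) k := by
  rw [ArithmeticFunction.mul_apply]
  rfl

/-- (1) -/
lemma fc_eq (d m : ℕ) : fc (d * m) = ∑ x ∈ m.divisorsAntidiagonal, hd d x.1 * fc x.2 := by
  have h : Fd d = (Fd d * dA (1 / 2)) * dA (-(1 / 2)) := by
    rw [mul_assoc, dA_mul, show (1 / 2 + -(1 / 2) : ℝ) = 0 by ring, dA_zero, mul_one]
  have h2 := congrArg (fun A : ArithmeticFunction ℝ => A m) h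
  simp only [Fd_apply] at h2
  rw [h2, ArithmeticFunction.mul_apply]
  exact sum_congr rfl fun x _ => by rw [← hd_eq]; rfl

lemma hd_one (k : ℕ) : hd 1 k = if k = 1 then 1 else 0 := by
  rw [hd_eq]
  have h : Fd 1 = dA (-(1 / 2)) := by
    ext m
    rw [Fd_apply, one_mul]
    rfl
  rw [h, dA_mul, show (-(1 / 2) + 1 / 2 : ℝ) = 0 by ring, dA_zero, ArithmeticFunction.one_apply]

/-- an arithmetic function which is supported on the powers of `p` -/
def PPw (p : ℕ) (w : ℕ → ℝ) : ArithmeticFunction ℝ :=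
  ⟨fun m => if m = p ^ m.factorization p then w (m.factorization p) else 0, by simp⟩

lemma PPw_pow {p : ℕ} (hp : p.Prime) (w : ℕ → ℝ) (l : ℕ) : PPw p w (p ^ l) = w l := by
  show (if p ^ l = p ^ (p ^ l).factorization p then w ((p ^ l).factorization p) else 0) = w l
  rw [hp.factorization_pow, Finsupp.single_eq_same, if_pos rfl]

lemma PPw_ne {p m : ℕ} {w : ℕ → ℝ} (h : PPw p w m ≠ 0) : m = p ^ m.factorization p := by
  by_contra h2
  apply h
  show (if m = p ^ m.factorization p then w (m.factorization p) else 0) = 0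
  rw [if_neg h2]

lemma PPw_mul {p : ℕ} (hp : p.Prime) (w : ℕ → ℝ) (A : ArithmeticFunction ℝ) (i m : ℕ)
    (hm : ¬ p ∣ m) : (PPw p w * A) (p ^ i * m) =
      ∑ l ∈ range (i + 1), w l * A (p ^ (i - l) * m) := by
  have hm0 : m ≠ 0 := fun h => hm (h ▸ dvd_zero p)
  have hN : p ^ i * m ≠ 0 := mul_ne_zero (pow_ne_zero _ hp.ne_zero) hm0
  rw [ArithmeticFunction.mul_apply, Nat.sum_divisorsAntidiagonal (fun x y => PPw p w x * A y)]
  have hsub : (range (i + 1)).image (fun l => p ^ l) ⊆ (p ^ i * m).divisors := by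
    intro x hx
    rw [mem_image] at hx
    obtain ⟨l, hl, rfl⟩ := hx
    rw [Nat.mem_divisors]
    exact ⟨(pow_dvd_pow p (by rw [mem_range] at hl; omega)).trans (dvd_mul_right _ _), hN⟩
  rw [← sum_subset hsub]
  · rw [sum_image (fun a _ b _ h => Nat.pow_right_injective hp.two_le h)]
    refine sum_congr rfl fun l hl => ?_
    rw [mem_range] at hl
    rw [PPw_pow hp]
    congr 2
    have : p ^ i * m = p ^ l * (p ^ (i - l) * m) := by
      rw [← mul_assoc, ← pow_add, Nat.add_sub_cancel' (by omega)]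
    rw [this, Nat.mul_div_cancel_left _ (pow_pos hp.pos l)]
  · intro x hx hx2
    by_contra h
    have h1 := PPw_ne (left_ne_zero_of_mul h)
    apply hx2
    rw [mem_image]
    refine ⟨x.factorization p, ?_, h1.symm⟩
    rw [mem_range, Nat.lt_succ_iff]
    rw [Nat.mem_divisors] at hx
    have h2 : p ^ x.factorization p ∣ p ^ i * m := by
      rw [← h1]
      exact hx.1
    have h3 : p ^ x.factorization p ∣ p ^ i :=
      (Nat.Coprime.pow_left _ ((Nat.Prime.coprime_iff_not_dvd hp).2 hm)).dvd_of_dvd_mul_right h2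
    exact (Nat.pow_dvd_pow_iff_le_right hp.one_lt).1 h3

/-- the local coefficients -/
def ww (n j : ℕ) : ℝ := ∑ x ∈ antidiagonal j, lc (-(1 / 2)) (n + x.1) * lc (1 / 2) x.2

lemma ww_inv (n i : ℕ) :
    ∑ x ∈ antidiagonal i, ww n x.1 * lc (-(1 / 2)) x.2 = lc (-(1 / 2)) (n + i) := by
  have h1 : (PowerSeries.mk fun j => lc (1 / 2) j) * (PowerSeries.mk fun j => lc (-(1 / 2)) j) =
      (1 : PowerSeries ℝ) := by
    ext j
    rw [PowerSeries.coeff_mul]
    simp only [PowerSeries.coeff_mk]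
    rw [lc_conv, show (1 / 2 + -(1 / 2) : ℝ) = 0 by ring, PowerSeries.coeff_one]
    cases j with
    | zero => simp [lc_zero]
    | succ j =>
      rw [if_neg (Nat.succ_ne_zero j)]
      unfold lc
      exact prod_eq_zero (i := 0) (by simp) (by simp)
  have h2 : (PowerSeries.mk fun j => ww n j) =
      (PowerSeries.mk fun j => lc (-(1 / 2)) (n + j)) * PowerSeries.mk fun j => lc (1 / 2) j := by
    ext j
    rw [PowerSeries.coeff_mul]
    simp only [PowerSeries.coeff_mk]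
    rfl
  have h3 : (PowerSeries.mk fun j => ww n j) * (PowerSeries.mk fun j => lc (-(1 / 2)) j) =
      PowerSeries.mk fun j => lc (-(1 / 2)) (n + j) := by
    rw [h2, mul_assoc, h1, mul_one]
  have h4 := congrArg (PowerSeries.coeff i) h3
  rw [PowerSeries.coeff_mul] at h4
  simpa only [PowerSeries.coeff_mk] using h4

lemma fc_pow_mul {p : ℕ} (hp : p.Prime) (i m : ℕ) (hm : ¬ p ∣ m) :
    fc (p ^ i * m) = lc (-(1 / 2)) i * fc m := by
  have h := (dA_mult (-(1 / 2))).map_mul_of_coprime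
    (Nat.Coprime.pow_left i ((Nat.Prime.coprime_iff_not_dvd hp).2 hm))
  rw [dA_apply, dA_apply, dA_apply, dv_prime_pow _ hp] at h
  exact h

lemma Fd_pow_mul {p : ℕ} (hp : p.Prime) (n a : ℕ) (ha : ¬ p ∣ a) :
    Fd (p ^ n * a) = PPw p (ww n) * Fd a := by
  ext m
  rcases Nat.eq_zero_or_pos m with rfl | hm
  · simp
  obtain ⟨i, m', hm', rfl⟩ : ∃ i m', ¬ p ∣ m' ∧ m = p ^ i * m' := by
    obtain ⟨i, m', h1, h2⟩ := Nat.exists_eq_pow_mul_and_not_dvd hm.ne' p hp.ne_one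
    exact ⟨i, m', h1, h2⟩
  rw [PPw_mul hp _ _ _ _ hm', Fd_apply]
  have ham : ¬ p ∣ a * m' := fun h => (hp.dvd_mul.1 h).elim ha hm'
  have e1 : p ^ n * a * (p ^ i * m') = p ^ (n + i) * (a * m') := by rw [pow_add]; ring
  rw [e1, fc_pow_mul hp _ _ ham, ← ww_inv, Nat.sum_antidiagonal_eq_sum_range_succ_mk, sum_mul]
  refine sum_congr rfl fun l _ => ?_
  rw [Fd_apply, show a * (p ^ (i - l) * m') = p ^ (i - l) * (a * m') by ring,
    fc_pow_mul hp _ _ ham]
  ring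

lemma hd_pow_mul {p : ℕ} (hp : p.Prime) (n a : ℕ) (ha : ¬ p ∣ a) (k : ℕ) :
    hd (p ^ n * a) k = ∑ x ∈ k.divisorsAntidiagonal, PPw p (ww n) x.1 * hd a x.2 := by
  rw [hd_eq, Fd_pow_mul hp n a ha, mul_assoc, ArithmeticFunction.mul_apply]
  exact sum_congr rfl fun x _ => by rw [← hd_eq]

/-! ## bounds -/

lemma lc_half_le (m : ℕ) : lc (1 / 2) m ≤ 1 := by
  have := lc_mono (by norm_num : (0 : ℝ) ≤ 1 / 2) (by norm_num : (1 / 2 : ℝ) ≤ 1) m
  rwa [lc_one_left] at this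

lemma lc_neg (m : ℕ) : lc (-(1 / 2)) (m + 1) ≤ 0 ∧ |lc (-(1 / 2)) (m + 1)| ≤ 1 / 2 := by
  induction m with
  | zero => rw [zero_add, lc_one]; norm_num
  | succ m ih =>
    rw [lc_succ]
    have h1 : (0 : ℝ) ≤ (-(1 / 2) + ((m + 1 : ℕ) : ℝ)) / (((m + 1 : ℕ) : ℝ) + 1) := by
      push_cast
      have : (0 : ℝ) ≤ m := Nat.cast_nonneg m
      apply div_nonneg <;> linarith
    have h2 : (-(1 / 2) + ((m + 1 : ℕ) : ℝ)) / (((m + 1 : ℕ) : ℝ) + 1) ≤ 1 := by
      push_cast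
      have : (0 : ℝ) ≤ m := Nat.cast_nonneg m
      rw [div_le_one (by linarith)]
      linarith
    refine ⟨mul_nonpos_of_nonpos_of_nonneg ih.1 h1, ?_⟩
    rw [abs_mul, abs_of_nonneg h1]
    calc _ ≤ |lc (-(1 / 2)) (m + 1)| * 1 := mul_le_mul_of_nonneg_left h2 (abs_nonneg _)
      _ ≤ 1 / 2 := by rw [mul_one]; exact ih.2

lemma sum_lc (N : ℕ) : ∑ i ∈ range N, |lc (-(1 / 2)) (i + 1)| ≤ 1 := by
  have h1 := lc_conv (-(1 / 2)) 1 N
  rw [Nat.sum_antidiagonal_eq_sum_range_succ_mk] at h1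
  simp only [lc_one_left, mul_one] at h1
  rw [sum_range_succ', lc_zero, show (-(1 / 2) + 1 : ℝ) = 1 / 2 by ring] at h1
  have h2 := lc_nonneg (by norm_num : (0 : ℝ) ≤ 1 / 2) N
  have h3 : ∑ i ∈ range N, |lc (-(1 / 2)) (i + 1)| = -∑ i ∈ range N, lc (-(1 / 2)) (i + 1) := by
    rw [← sum_neg_distrib]
    exact sum_congr rfl fun i _ => abs_of_nonpos (lc_neg i).1
  rw [h3]
  linarith

lemma ww_zero {n : ℕ} (hn : 0 < n) : |ww n 0| ≤ 1 / 2 := by
  unfold ww
  obtain ⟨m, rfl⟩ := Nat.exists_eq_succ_of_ne_zero hn.ne'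
  simpa [lc_zero] using (lc_neg m).2

lemma ww_le {n : ℕ} (hn : 0 < n) (j : ℕ) : |ww n j| ≤ 1 := by
  unfold ww
  rw [Nat.sum_antidiagonal_eq_sum_range_succ_mk]
  obtain ⟨m, rfl⟩ := Nat.exists_eq_succ_of_ne_zero hn.ne'
  refine (abs_sum_le_sum_abs _ _).trans ?_
  have h1 : ∑ i ∈ range (j + 1), |lc (-(1 / 2)) (m.succ + i) * lc (1 / 2) (j - i)| ≤
      ∑ i ∈ range (j + 1), |lc (-(1 / 2)) (m + i + 1)| := by
    refine sum_le_sum fun i _ => ?_
    rw [abs_mul, abs_of_nonneg (lc_nonneg (by norm_num : (0 : ℝ) ≤ 1 / 2) _),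
      show m.succ + i = m + i + 1 by omega]
    exact mul_le_of_le_one_right (abs_nonneg _) (lc_half_le _)
  refine h1.trans (le_trans ?_ (sum_lc (m + (j + 1))))
  rw [sum_range_add (fun i => |lc (-(1 / 2)) (i + 1)|) m (j + 1)]
  exact le_add_of_nonneg_left (sum_nonneg fun i _ => abs_nonneg _)

lemma rp_le {p : ℕ} (hp : p.Prime) : (p : ℝ) ^ (-(3 / 4) : ℝ) ≤ 2 / 3 := by
  have h2 : (2 : ℝ) ≤ p := by exact_mod_cast hp.two_le
  have h1 : (p : ℝ) ^ (-(3 / 4) : ℝ) ≤ 2 ^ (-(3 / 4) : ℝ) :=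
    Real.rpow_le_rpow_of_nonpos (by norm_num) h2 (by norm_num)
  refine h1.trans ?_
  have h3 : (0 : ℝ) ≤ 2 ^ (-(3 / 4) : ℝ) := by positivity
  have h4 : ((2 : ℝ) ^ (-(3 / 4) : ℝ)) ^ 4 = 1 / 8 := by
    rw [← Real.rpow_natCast, ← Real.rpow_mul (by norm_num)]
    norm_num
  by_contra h
  push Not at h
  have h5 : (2 / 3 : ℝ) ^ 4 < ((2 : ℝ) ^ (-(3 / 4) : ℝ)) ^ 4 := by gcongr
  rw [h4] at h5
  norm_num at h5

lemma PPw_sum {p : ℕ} (hp : p.Prime) {n : ℕ} (hn : 0 < n) (X : ℕ) :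
    ∑ x ∈ Icc 1 X, |PPw p (ww n) x| * (x : ℝ) ^ (-(3 / 4) : ℝ) ≤
      1 / 2 + 3 * (p : ℝ) ^ (-(3 / 4) : ℝ) := by
  classical
  set r : ℝ := (p : ℝ) ^ (-(3 / 4) : ℝ) with hr
  have hr0 : 0 ≤ r := by positivity
  have hr1 : r ≤ 2 / 3 := rp_le hp
  have h1 : ∑ x ∈ Icc 1 X, |PPw p (ww n) x| * (x : ℝ) ^ (-(3 / 4) : ℝ) ≤
      ∑ x ∈ (range (X + 1)).image (fun l => p ^ l),
        |PPw p (ww n) x| * (x : ℝ) ^ (-(3 / 4) : ℝ) := by
    rw [← sum_filter_add_sum_filter_not (Icc 1 X) (fun x => PPw p (ww n) x ≠ 0)]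
    have h2 : ∑ x ∈ (Icc 1 X).filter (fun x => ¬ PPw p (ww n) x ≠ 0),
        |PPw p (ww n) x| * (x : ℝ) ^ (-(3 / 4) : ℝ) = 0 := by
      refine sum_eq_zero fun x hx => ?_
      rw [mem_filter, not_not] at hx
      rw [hx.2]
      simp
    rw [h2, add_zero]
    refine sum_le_sum_of_subset_of_nonneg ?_ (fun x _ _ => by positivity)
    intro x hx
    rw [mem_filter, mem_Icc] at hx
    rw [mem_image]
    have h3 := PPw_ne hx.2
    refine ⟨x.factorization p, ?_, h3.symm⟩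
    rw [mem_range]
    have h4 : x.factorization p < p ^ x.factorization p := Nat.lt_pow_self hp.one_lt
    omega
  refine h1.trans ?_
  rw [sum_image (fun a _ b _ h => Nat.pow_right_injective hp.two_le h)]
  have h5 : ∀ l, ((p ^ l : ℕ) : ℝ) ^ (-(3 / 4) : ℝ) = r ^ l := by
    intro l
    rw [hr, Nat.cast_pow, ← Real.rpow_natCast, ← Real.rpow_natCast, ← Real.rpow_mul (by positivity),
      ← Real.rpow_mul (by positivity), mul_comm]
  simp only [PPw_pow hp, h5]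
  rw [sum_range_succ']
  have h6 : ∑ k ∈ range X, |ww n (k + 1)| * r ^ (k + 1) ≤ 3 * r := by
    have h7 : ∑ k ∈ range X, |ww n (k + 1)| * r ^ (k + 1) ≤ ∑ k ∈ range X, r * r ^ k := by
      refine sum_le_sum fun k _ => ?_
      rw [pow_succ']
      exact mul_le_of_le_one_left (by positivity) (ww_le hn _)
    refine h7.trans ?_
    rw [← mul_sum, mul_comm 3 r]
    refine mul_le_mul_of_nonneg_left ?_ hr0
    have h8 : ∑ k ∈ range X, r ^ k ≤ (1 - r)⁻¹ := by
      rw [← tsum_geometric_of_lt_one hr0 (by linarith)]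
      exact (summable_geometric_of_lt_one hr0 (by linarith)).sum_le_tsum _
        (fun i _ => by positivity)
    refine h8.trans ?_
    rw [inv_le_comm₀ (by linarith) (by norm_num)]
    linarith
  have h9 := ww_zero hn
  rw [pow_zero, mul_one]
  linarith

/-- convolution in weighted `ℓ¹` -/
lemma conv_le (W H : ℕ → ℝ) (X : ℕ) :
    ∑ k ∈ Icc 1 X, |∑ x ∈ k.divisorsAntidiagonal, W x.1 * H x.2| * (k : ℝ) ^ (-(3 / 4) : ℝ) ≤
      (∑ x ∈ Icc 1 X, |W x| * (x : ℝ) ^ (-(3 / 4) : ℝ)) *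
      (∑ x ∈ Icc 1 X, |H x| * (x : ℝ) ^ (-(3 / 4) : ℝ)) := by
  classical
  have h1 : ∀ k ∈ Icc 1 X, |∑ x ∈ k.divisorsAntidiagonal, W x.1 * H x.2| *
      (k : ℝ) ^ (-(3 / 4) : ℝ) ≤ ∑ x ∈ k.divisorsAntidiagonal,
        (|W x.1| * (x.1 : ℝ) ^ (-(3 / 4) : ℝ)) * (|H x.2| * (x.2 : ℝ) ^ (-(3 / 4) : ℝ)) := by
    intro k _
    refine (mul_le_mul_of_nonneg_right (abs_sum_le_sum_abs _ _) (by positivity)).trans
      (le_of_eq ?_)
    rw [sum_mul]
    refine sum_congr rfl fun x hx => ?_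
    rw [Nat.mem_divisorsAntidiagonal] at hx
    rw [← hx.1, Nat.cast_mul, Real.mul_rpow (by positivity) (by positivity), abs_mul]
    ring
  refine (sum_le_sum h1).trans ?_
  rw [← sum_biUnion]
  · rw [sum_mul_sum, ← sum_product']
    refine sum_le_sum_of_subset_of_nonneg ?_ (fun x _ _ => by positivity)
    intro x hx
    rw [mem_biUnion] at hx
    obtain ⟨k, hk, hx⟩ := hx
    rw [Nat.mem_divisorsAntidiagonal] at hx
    rw [mem_Icc] at hk
    obtain ⟨hx1, hx2⟩ := hx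
    have hne : x.1 * x.2 ≠ 0 := by rw [hx1]; exact hx2
    have h3 : 0 < x.1 := Nat.pos_of_ne_zero (left_ne_zero_of_mul hne)
    have h4 : 0 < x.2 := Nat.pos_of_ne_zero (right_ne_zero_of_mul hne)
    rw [mem_product, mem_Icc, mem_Icc]
    refine ⟨⟨h3, ?_⟩, ⟨h4, ?_⟩⟩
    · calc x.1 ≤ x.1 * x.2 := Nat.le_mul_of_pos_right _ h4
        _ ≤ X := by rw [hx1]; exact hk.2
    · calc x.2 ≤ x.1 * x.2 := Nat.le_mul_of_pos_left _ h3
        _ ≤ X := by rw [hx1]; exact hk.2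
  · intro k _ k' _ hkk
    rw [Function.onFun, Finset.disjoint_left]
    intro x hx hx'
    rw [Nat.mem_divisorsAntidiagonal] at hx hx'
    exact hkk (hx.1.symm.trans hx'.1)

/-- **S_HD** -/
theorem s_hd : S_HD := by
  refine ⟨fun d m _ _ => fc_eq d m, fun d X hd0 => ?_⟩
  induction d using Nat.recOnPrimePow with
  | zero => exact absurd hd0 (by norm_num)
  | one =>
    simp only [hd_one]
    have h1 : ∑ k ∈ Icc 1 X, |if k = 1 then (1 : ℝ) else 0| * (k : ℝ) ^ (-(3 / 4) : ℝ) ≤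
        ∑ k ∈ Icc 1 X, if k = 1 then (1 : ℝ) else 0 := by
      refine sum_le_sum fun k _ => ?_
      by_cases h : k = 1
      · subst h; simp
      · simp [h]
    refine h1.trans ?_
    rw [sum_ite_eq']
    unfold KK
    simp only [Nat.primeFactors_one, prod_empty]
    split_ifs <;> norm_num
  | prime_pow_mul a p n hp hpa hn ih =>
    have ha0 : 1 ≤ a := Nat.pos_of_ne_zero (fun h => hpa (h ▸ dvd_zero p))
    have h1 := ih ha0
    simp only [hd_pow_mul hp n a hpa]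
    refine (conv_le _ _ X).trans ?_
    have hKK : KK (p ^ n * a) = (1 / 2 + 3 * (p : ℝ) ^ (-(3 / 4) : ℝ)) * KK a := by
      unfold KK
      rw [Nat.Coprime.primeFactors_mul
        (Nat.Coprime.pow_left n ((Nat.Prime.coprime_iff_not_dvd hp).2 hpa)),
        Nat.primeFactors_prime_pow hn.ne' hp, prod_union, prod_singleton]
      rw [disjoint_singleton_left]
      exact fun h => hpa (Nat.dvd_of_mem_primeFactors h)
    rw [hKK]
    exact mul_le_mul (PPw_sum hp hn X) h1 (sum_nonneg fun k _ => by positivity) (by positivity)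

end

end Pool.Agent.L7h26.DP
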